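import Pool.Agent.H82.PD.Targets

/-!
Local smoothing for data with a positivity property: convolutions with nonnegative kernels on
`ℝ^d` (adapted from Pool/Agent/H79/Wave/OSC.lean).
-/

set_option autoImplicit false

namespace Pool.Agent.H20.PD

open MeasureTheory Set Pool.Agent.H82.KL
open scoped ENNReal NNReal

/-- Jensen's inequality with a weight -/
lemma jensen_wt {α : Type*} [MeasurableSpace α] (μ : Measure α) (k w : α → ENNReal)
    (hk : Measurable k) (hw : Measurable w) (q : ℝ) (hq : 1 ≤ q) :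
    (∫⁻ a, k a * w a ∂μ) ^ q ≤ (∫⁻ a, k a ∂μ) ^ (q - 1) * ∫⁻ a, k a * w a ^ q ∂μ := by
  have hq0 : 0 < q := by linarith
  have h1 : (0 : ℝ) ≤ 1 / q := by positivity
  have h2 : 0 ≤ 1 - 1 / q := by
    rw [sub_nonneg, div_le_one hq0]
    exact hq
  have h := ENNReal.lintegral_mul_norm_pow_le (μ := μ) (f := fun a => k a * w a ^ q) (g := k)
    (hk.mul (hw.pow_const q)).aemeasurable hk.aemeasurable h1 h2 (by ring)
  have e : ∀ a, (k a * w a ^ q) ^ (1 / q) * k a ^ (1 - 1 / q) = k a * w a := by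
    intro a
    rw [ENNReal.mul_rpow_of_nonneg _ _ h1, ← ENNReal.rpow_mul, mul_one_div_cancel hq0.ne',
      ENNReal.rpow_one, mul_right_comm, ← ENNReal.rpow_add_of_nonneg _ _ h1 h2]
    simp
  simp_rw [e] at h
  calc (∫⁻ a, k a * w a ∂μ) ^ q ≤
        ((∫⁻ a, k a * w a ^ q ∂μ) ^ (1 / q) * (∫⁻ a, k a ∂μ) ^ (1 - 1 / q)) ^ q :=
        ENNReal.rpow_le_rpow h hq0.le
    _ = _ := by
        rw [ENNReal.mul_rpow_of_nonneg _ _ hq0.le, ← ENNReal.rpow_mul, ← ENNReal.rpow_mul,
          one_div_mul_cancel hq0.ne', ENNReal.rpow_one, mul_comm]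
        congr 2
        field_simp

variable {d : ℕ}

/-- convolution of nonnegative functions -/
noncomputable def cv (k h : EE d → ℝ≥0∞) (x : EE d) : ℝ≥0∞ := ∫⁻ y, k (x - y) * h y

lemma cv_meas (k h : EE d → ℝ≥0∞) (hk : Measurable k) (hh : Measurable h) :
    Measurable (cv k h) := by
  unfold cv
  have h1 : Measurable (fun w : EE d × EE d => k (w.1 - w.2) * h w.2) :=
    (hk.comp (by fun_prop)).mul (hh.comp measurable_snd)
  exact h1.lintegral_prod_right'

lemma cv_mono (k h h' : EE d → ℝ≥0∞) (hle : ∀ x, h x ≤ h' x) (x : EE d) :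
    cv k h x ≤ cv k h' x := by
  unfold cv
  gcongr with y
  exact hle y

lemma cv_const_mul (k h : EE d → ℝ≥0∞) (c : ℝ≥0∞) (hk : Measurable k) (hh : Measurable h)
    (x : EE d) : cv k (fun y => c * h y) x = c * cv k h x := by
  have hm : Measurable fun y : EE d => k (x - y) * h y := (hk.comp (by fun_prop)).mul hh
  unfold cv
  rw [← lintegral_const_mul c hm]
  refine lintegral_congr fun y => ?_
  ring

lemma cv_lint (k h : EE d → ℝ≥0∞) (hk : Measurable k) (hh : Measurable h) :
    ∫⁻ x, cv k h x = (∫⁻ z, k z) * ∫⁻ y, h y := by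
  unfold cv
  rw [lintegral_lintegral_swap]
  · have e : ∀ y : EE d, ∫⁻ x, k (x - y) * h y = (∫⁻ z, k z) * h y := by
      intro y
      have hky : Measurable (fun x : EE d => k (x - y)) := hk.comp (by fun_prop)
      rw [lintegral_mul_const _ hky, lintegral_sub_right_eq_self (fun z => k z) y]
    simp_rw [e]
    rw [lintegral_const_mul _ hh]
  · apply Measurable.aemeasurable
    exact (hk.comp (by fun_prop)).mul (hh.comp measurable_snd)

/-- Young's inequality -/
lemma cv_young (k h : EE d → ℝ≥0∞) (hk : Measurable k) (hh : Measurable h) (q : ℝ)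
    (hq : 1 ≤ q) : ∫⁻ x, cv k h x ^ q ≤ (∫⁻ z, k z) ^ q * ∫⁻ y, h y ^ q := by
  have h1 : ∀ x, cv k h x ^ q ≤ (∫⁻ z, k z) ^ (q - 1) * cv k (fun y => h y ^ q) x := by
    intro x
    have h2 := jensen_wt volume (fun y => k (x - y)) h (hk.comp (by fun_prop)) hh q hq
    rw [lintegral_sub_left_eq_self (fun z => k z) x] at h2
    exact h2
  calc ∫⁻ x, cv k h x ^ q ≤ ∫⁻ x, (∫⁻ z, k z) ^ (q - 1) * cv k (fun y => h y ^ q) x :=
        lintegral_mono h1
    _ = (∫⁻ z, k z) ^ (q - 1) * ((∫⁻ z, k z) * ∫⁻ y, h y ^ q) := by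
        rw [lintegral_const_mul _ (cv_meas k _ hk (hh.pow_const q)), cv_lint k _ hk
          (hh.pow_const q)]
    _ = _ := by
        rw [← mul_assoc]
        congr 1
        nth_rewrite 2 [← ENNReal.rpow_one (∫⁻ z, k z)]
        rw [← ENNReal.rpow_add_of_nonneg _ _ (by linarith) (by norm_num)]
        congr 1
        ring

/-- the other form of the convolution -/
lemma cv_symm (k h : EE d → ℝ≥0∞) (x : EE d) : cv k h x = ∫⁻ z, k z * h (x - z) := by
  unfold cv
  rw [← lintegral_sub_left_eq_self (fun z => k z * h (x - z)) x]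
  refine lintegral_congr fun y => ?_
  rw [sub_sub_cancel]

end Pool.Agent.H20.PD
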