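import Pool.Agent.H20.PD.PSI
import Pool.Agent.H22.KL.GRAM

/-!
Row LCK of the board `pdp_modules`: localization of the kernel inequality to balls.
-/

set_option autoImplicit false

namespace Pool.Agent.H20.PD

open MeasureTheory Set Pool.Agent.H82.KL Pool.Agent.H82.PD Pool.Agent.H94.C1
open scoped ENNReal NNReal

variable {d : ℕ}

/-- the restriction of `f` to a ball of radius `4R` -/
noncomputable def fw (R : ℝ) (f : EE d → ℂ) (w : EE d) : EE d → ℂ :=
  (Metric.closedBall w (4 * R)).indicator f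

lemma fw_BM {f : EE d → ℂ} (hf : BM f) (R : ℝ) (w : EE d) : BM (fw R f w) := by
  obtain ⟨h1, A, hA⟩ := hf
  refine ⟨h1.indicator Metric.isClosed_closedBall.measurableSet, A, fun y => ?_⟩
  unfold fw
  by_cases hy : y ∈ Metric.closedBall w (4 * R)
  · rw [indicator_of_mem hy]
    exact hA y
  · rw [indicator_of_notMem hy, norm_zero]
    exact (norm_nonneg _).trans (hA y)

lemma U_int {a : EE d → ℂ} (ha : Sym a) (z : EE d × ℝ) {f : EE d → ℂ} (hf : BM f) :
    Integrable fun y : EE d => U a (z.1 - y, z.2) * f y := by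
  obtain ⟨h1, A, hA⟩ := hf
  have h2 := ((Pool.Agent.H22.KL.gram_main d a ha).2.2.1 z).1
  exact h2.mul_bdd (c := A) h1.aestronglyMeasurable (Filter.Eventually.of_forall hA)

/-- splitting of the wave into the local part and the tail -/
lemma W_split {a : EE d → ℂ} (ha : Sym a) (R : ℝ) (z : EE d × ℝ) {f : EE d → ℂ} (hf : BM f)
    (w : EE d) (k : EE d → ℝ≥0∞)
    (hk : ∀ y, y ∉ Metric.closedBall w (4 * R) → ‖U a (z.1 - y, z.2)‖ₑ ≤ k (z.1 - y)) :
    ‖W a f z‖ₑ ≤ ‖W a (fw R f w) z‖ₑ + cv k (fun y => ‖f y‖ₑ) z.1 := by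
  have h1 : W a f z = W a (fw R f w) z + ∫ y, U a (z.1 - y, z.2) * (f y - fw R f w y) := by
    unfold W
    rw [← integral_add (U_int ha z (fw_BM hf R w))]
    · refine integral_congr_ae (Filter.Eventually.of_forall fun y => ?_)
      show U a (z.1 - y, z.2) * f y =
        U a (z.1 - y, z.2) * fw R f w y + U a (z.1 - y, z.2) * (f y - fw R f w y)
      ring
    · have h2 := (U_int ha z hf).sub (U_int ha z (fw_BM hf R w))
      refine h2.congr (Filter.Eventually.of_forall fun y => ?_)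
      show U a (z.1 - y, z.2) * f y - U a (z.1 - y, z.2) * fw R f w y =
        U a (z.1 - y, z.2) * (f y - fw R f w y)
      ring
  rw [h1]
  refine (enorm_add_le _ _).trans ?_
  gcongr
  refine (enorm_integral_le_lintegral_enorm _).trans ?_
  unfold cv
  refine lintegral_mono fun y => ?_
  by_cases hy : y ∈ Metric.closedBall w (4 * R)
  · have h3 : fw R f w y = f y := by
      unfold fw
      rw [indicator_of_mem hy]
    show ‖U a (z.1 - y, z.2) * (f y - fw R f w y)‖ₑ ≤ _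
    rw [h3, sub_self, mul_zero, enorm_zero]
    exact zero_le
  · have h3 : fw R f w y = 0 := by
      unfold fw
      rw [indicator_of_notMem hy]
    show ‖U a (z.1 - y, z.2) * (f y - fw R f w y)‖ₑ ≤ k (z.1 - y) * ‖f y‖ₑ
    rw [h3, sub_zero, enorm_mul]
    gcongr
    exact hk y hy

/-- the kernels away from the light cone -/
lemma tail_bd (hK : T_K1) (d M : ℕ) (a : EE d → ℂ) (hd : 1 ≤ d) (ha : Sym a) : ∃ C : ℝ, 0 ≤ C ∧
    ∀ (R t ε : ℝ) (y : EE d), 1 ≤ R → R ≤ t → t ≤ 2 * R → (ε = 1 ∨ ε = -1) → 3 * R ≤ ‖y‖ →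
    ‖U a (y, ε * t)‖ ≤ C * (R ^ M)⁻¹ * ((1 + ‖y‖) ^ (d + 1))⁻¹ := by
  obtain ⟨C, hC0, hC⟩ := hK d (M + (d + 1)) a hd ha
  refine ⟨C * 3 ^ (M + (d + 1)), by positivity, fun R t ε y hR ht1 ht2 hε hy => ?_⟩
  have hR0 : 0 < R := by linarith
  have ht0 : 0 < t := by linarith
  have hs : |ε * t| = t := by
    rcases hε with rfl | rfl
    · rw [one_mul, abs_of_pos ht0]
    · rw [neg_one_mul, abs_neg, abs_of_pos ht0]
  have h1 := hC y (ε * t)
  rw [hs] at h1
  have h2 : (1 + ‖y‖ + t) ^ (-(((d : ℝ) - 1) / 2)) ≤ 1 := by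
    refine Real.rpow_le_one_of_one_le_of_nonpos ?_ ?_
    · have := norm_nonneg y
      linarith
    · have h3 : (1 : ℝ) ≤ d := by exact_mod_cast hd
      linarith
  have h3 : (1 + ‖y‖) / 3 ≤ 1 + |‖y‖ - t| := by
    rw [abs_of_nonneg (by linarith)]
    linarith
  have h4 : R ^ M * (1 + ‖y‖) ^ (d + 1) / 3 ^ (M + (d + 1)) ≤
      (1 + |‖y‖ - t|) ^ (M + (d + 1)) := by
    have h5 : R ^ M ≤ (1 + ‖y‖) ^ M := by
      refine pow_le_pow_left₀ hR0.le ?_ _
      linarith
    calc R ^ M * (1 + ‖y‖) ^ (d + 1) / 3 ^ (M + (d + 1)) ≤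
          (1 + ‖y‖) ^ M * (1 + ‖y‖) ^ (d + 1) / 3 ^ (M + (d + 1)) := by
          gcongr
      _ = ((1 + ‖y‖) / 3) ^ (M + (d + 1)) := by
          rw [← pow_add, div_pow]
      _ ≤ _ := pow_le_pow_left₀ (by positivity) h3 _
  have h6 : ((1 + |‖y‖ - t|) ^ (M + (d + 1)))⁻¹ ≤
      3 ^ (M + (d + 1)) * (R ^ M)⁻¹ * ((1 + ‖y‖) ^ (d + 1))⁻¹ := by
    calc ((1 + |‖y‖ - t|) ^ (M + (d + 1)))⁻¹ ≤
          (R ^ M * (1 + ‖y‖) ^ (d + 1) / 3 ^ (M + (d + 1)))⁻¹ :=
          inv_anti₀ (by positivity) h4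
      _ = _ := by
          rw [inv_div, div_eq_mul_inv, mul_inv, mul_assoc]
  calc ‖U a (y, ε * t)‖ ≤ C * (1 + ‖y‖ + t) ^ (-(((d : ℝ) - 1) / 2)) *
        ((1 + |‖y‖ - t|) ^ (M + (d + 1)))⁻¹ := h1
    _ ≤ C * 1 * (3 ^ (M + (d + 1)) * (R ^ M)⁻¹ * ((1 + ‖y‖) ^ (d + 1))⁻¹) := by
        gcongr
    _ = _ := by ring

/-- the potential of the restriction of a function to a ball -/
lemma ka_le (R : ℝ) (g : EE d → ℝ≥0∞) (w x : EE d) (hx : x ∈ Metric.closedBall w (4 * R)) :
    ka R (fun y => (Metric.closedBall w (4 * R)).indicator g y) x ≤ kaB (8 * R) R g x := by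
  unfold ka kaB
  rw [← lintegral_indicator Metric.isClosed_closedBall.measurableSet]
  refine lintegral_mono fun y => ?_
  by_cases hy : y ∈ Metric.closedBall w (4 * R)
  · have h1 : y ∈ Metric.closedBall x (8 * R) := by
      rw [Metric.mem_closedBall] at hx hy ⊢
      have := dist_triangle_right y x w
      linarith
    rw [indicator_of_mem h1]
    beta_reduce
    rw [indicator_of_mem hy]
  · beta_reduce
    rw [indicator_of_notMem hy, zero_mul]
    exact zero_le

lemma kaB_meas (B R : ℝ) (g : EE d → ℝ≥0∞) (hg : Measurable g) : Measurable (kaB B R g) := by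
  have h1 : kaB B R g = fun x => ∫⁻ y, {q : EE d × EE d | dist q.2 q.1 ≤ B}.indicator
      (fun q => g q.2 * (ENNReal.ofReal (R ^ 2) * wt (q.1 - q.2))) (x, y) := by
    funext x
    unfold kaB
    rw [← lintegral_indicator Metric.isClosed_closedBall.measurableSet]
    refine lintegral_congr fun y => ?_
    by_cases hy : y ∈ Metric.closedBall x B
    · have h2 : (x, y) ∈ {q : EE d × EE d | dist q.2 q.1 ≤ B} := hy
      rw [indicator_of_mem hy, indicator_of_mem h2]
    · have h2 : (x, y) ∉ {q : EE d × EE d | dist q.2 q.1 ≤ B} := hy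
      rw [indicator_of_notMem hy, indicator_of_notMem h2]
  rw [h1]
  refine Measurable.lintegral_prod_right' ?_
  refine Measurable.indicator ?_ ?_
  · have hwt : Measurable (wt : EE d → ℝ≥0∞) := by
      unfold wt
      fun_prop
    exact (hg.comp measurable_snd).mul (measurable_const.mul (hwt.comp (by fun_prop)))
  · exact (isClosed_le (by fun_prop) continuous_const).measurableSet

/-- the average over the centres -/
lemma avg_ind (R : ℝ) (hR : 0 ≤ R) (G : EE d → ℝ≥0∞) (hG : Measurable G) :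
    ∫⁻ w : EE d, ∫⁻ x, (Metric.closedBall w (4 * R)).indicator G x =
      ENNReal.ofReal (4 ^ d) * volume (Metric.closedBall (0 : EE d) R) * ∫⁻ x, G x := by
  have hfin : Module.finrank ℝ (EE d) = d := finrank_euclideanSpace_fin
  have hm : Measurable fun q : EE d × EE d => (Metric.closedBall q.1 (4 * R)).indicator G q.2 := by
    have h1 : (fun q : EE d × EE d => (Metric.closedBall q.1 (4 * R)).indicator G q.2) =
        {q : EE d × EE d | dist q.2 q.1 ≤ 4 * R}.indicator (fun q => G q.2) := by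
      funext q
      by_cases hq : q.2 ∈ Metric.closedBall q.1 (4 * R)
      · have h2 : q ∈ {q : EE d × EE d | dist q.2 q.1 ≤ 4 * R} := hq
        rw [indicator_of_mem hq, indicator_of_mem h2]
      · have h2 : q ∉ {q : EE d × EE d | dist q.2 q.1 ≤ 4 * R} := hq
        rw [indicator_of_notMem hq, indicator_of_notMem h2]
    rw [h1]
    exact (hG.comp measurable_snd).indicator
      (isClosed_le (by fun_prop) continuous_const).measurableSet
  rw [lintegral_lintegral_swap hm.aemeasurable]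
  have h2 : ∀ x : EE d, ∫⁻ w : EE d, (Metric.closedBall w (4 * R)).indicator G x =
      ENNReal.ofReal (4 ^ d) * volume (Metric.closedBall (0 : EE d) R) * G x := by
    intro x
    have h3 : ∀ w : EE d, (Metric.closedBall w (4 * R)).indicator G x =
        (Metric.closedBall x (4 * R)).indicator (fun _ => G x) w := by
      intro w
      by_cases hw : x ∈ Metric.closedBall w (4 * R)
      · have h4 : w ∈ Metric.closedBall x (4 * R) := by
          rw [Metric.mem_closedBall] at hw ⊢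
          rw [dist_comm]
          exact hw
        rw [indicator_of_mem hw, indicator_of_mem h4]
      · have h4 : w ∉ Metric.closedBall x (4 * R) := by
          rw [Metric.mem_closedBall] at hw ⊢
          rw [dist_comm]
          exact hw
        rw [indicator_of_notMem hw, indicator_of_notMem h4]
    rw [lintegral_congr h3, lintegral_indicator Metric.isClosed_closedBall.measurableSet,
      setLIntegral_const, Measure.addHaar_closedBall volume x (by positivity),
      Measure.addHaar_closedBall volume (0 : EE d) hR, hfin, mul_pow,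
      ENNReal.ofReal_mul (by positivity)]
    ring
  rw [lintegral_congr h2, lintegral_const_mul _ hG]

lemma H_meas {a : EE d → ℂ} (ha : Sym a) (R ε p : ℝ) {f : EE d → ℂ} (hf : BM f) :
    Measurable fun q : (EE d × EE d) × ℝ => ‖W a (fw R f q.1.1) (q.1.2, ε * q.2)‖ₑ ^ p := by
  have hU := Pool.Agent.H22.KL.continuous_U ha
  have h1 : StronglyMeasurable fun r : ((EE d × EE d) × ℝ) × EE d =>
      U a (r.1.1.2 - r.2, ε * r.1.2) * fw R f r.1.1.1 r.2 := by
    refine StronglyMeasurable.mul ?_ ?_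
    · exact (hU.comp (by fun_prop)).stronglyMeasurable
    · have h2 : (fun r : ((EE d × EE d) × ℝ) × EE d => fw R f r.1.1.1 r.2) =
          {r : ((EE d × EE d) × ℝ) × EE d | dist r.2 r.1.1.1 ≤ 4 * R}.indicator
            (fun r => f r.2) := by
        funext r
        unfold fw
        by_cases hr : r.2 ∈ Metric.closedBall r.1.1.1 (4 * R)
        · have h3 : r ∈ {r : ((EE d × EE d) × ℝ) × EE d | dist r.2 r.1.1.1 ≤ 4 * R} := hr
          rw [indicator_of_mem hr, indicator_of_mem h3]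
        · have h3 : r ∉ {r : ((EE d × EE d) × ℝ) × EE d | dist r.2 r.1.1.1 ≤ 4 * R} := hr
          rw [indicator_of_notMem hr, indicator_of_notMem h3]
      rw [h2]
      exact ((hf.1.comp measurable_snd).indicator
        (isClosed_le (by fun_prop) continuous_const).measurableSet).stronglyMeasurable
  have h2 : StronglyMeasurable fun q : (EE d × EE d) × ℝ =>
      W a (fw R f q.1.1) (q.1.2, ε * q.2) := h1.integral_prod_right'
  exact h2.measurable.enorm.pow_const p

theorem pf_LCK (h : T_KIS) (hK : T_K1) : T_LCK := by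
  intro d M p a hd hp ha
  have hd1 : 1 ≤ d := by omega
  have hp1 : 1 ≤ p := by linarith
  have hp0 : 0 < p := by linarith
  obtain ⟨I, hI⟩ := kn_int d
  obtain ⟨CK, hCK⟩ := h d p a hd hp ha
  obtain ⟨CT, hCT0, hCT⟩ := tail_bd hK d (M + 1) a hd1 ha
  obtain ⟨C, hC⟩ : ∃ C : ℝ≥0, (C : ℝ≥0∞) = 2 ^ (p - 1) * (CK * ENNReal.ofReal (4 ^ d)) +
      2 ^ (p - 1) * (ENNReal.ofReal CT * I) ^ p := by
    refine ⟨(2 ^ (p - 1) * (CK * ENNReal.ofReal (4 ^ d)) +
      2 ^ (p - 1) * (ENNReal.ofReal CT * I) ^ p).toNNReal, ENNReal.coe_toNNReal ?_⟩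
    have h2 : (2 : ℝ≥0∞) ^ (p - 1) ≠ ⊤ :=
      ENNReal.rpow_ne_top_of_nonneg (by linarith) (by simp)
    refine ENNReal.add_ne_top.2 ⟨ENNReal.mul_ne_top h2 (ENNReal.mul_ne_top ENNReal.coe_ne_top
      ENNReal.ofReal_ne_top), ENNReal.mul_ne_top h2 ?_⟩
    exact ENNReal.rpow_ne_top_of_nonneg hp0.le
      (ENNReal.mul_ne_top ENNReal.ofReal_ne_top ENNReal.coe_ne_top)
  refine ⟨C, fun R ε f hR hε hf => ?_⟩
  have hR0 : 0 < R := by linarith
  obtain ⟨V, hV⟩ : ∃ V : ℝ≥0∞, V = volume (Metric.closedBall (0 : EE d) R) := ⟨_, rfl⟩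
  have hVx : ∀ x : EE d, volume (Metric.closedBall x R) = V := by
    intro x
    rw [hV, Measure.addHaar_closedBall volume x hR0.le, Measure.addHaar_closedBall volume _ hR0.le]
  have hV0 : V ≠ 0 := by
    rw [hV]
    exact (Metric.measure_closedBall_pos volume _ hR0).ne'
  have hVt : V ≠ ⊤ := by
    rw [hV]
    exact measure_closedBall_lt_top.ne
  -- the kernel of the tails
  obtain ⟨k, hk⟩ : ∃ k : EE d → ℝ≥0∞, k = fun z =>
      ENNReal.ofReal (CT * (R ^ (M + 1))⁻¹) * kn 1 z := ⟨_, rfl⟩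
  have hkm : Measurable k := by
    rw [hk]
    exact measurable_const.mul (kn_meas 1)
  have hkI : ∫⁻ z, k z = ENNReal.ofReal (CT * (R ^ (M + 1))⁻¹) * I := by
    rw [hk, lintegral_const_mul _ (kn_meas 1), hI 1 le_rfl]
  have hfe : Measurable fun y => ‖f y‖ₑ := hf.1.enorm
  have hcm : Measurable (cv k fun y => ‖f y‖ₑ) := cv_meas k _ hkm hfe
  -- the pointwise bound
  have hpt : ∀ t ∈ Icc R (2 * R), ∀ x : EE d, V * ‖W a f (x, ε * t)‖ₑ ^ p ≤
      2 ^ (p - 1) * ((∫⁻ w : EE d, ‖W a (fw R f w) (x, ε * t)‖ₑ ^ p) +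
        V * cv k (fun y => ‖f y‖ₑ) x ^ p) := by
    intro t ht x
    have hw : ∀ w ∈ Metric.closedBall x R, ‖W a f (x, ε * t)‖ₑ ^ p ≤
        2 ^ (p - 1) * (‖W a (fw R f w) (x, ε * t)‖ₑ ^ p + cv k (fun y => ‖f y‖ₑ) x ^ p) := by
      intro w hw
      refine (ENNReal.rpow_le_rpow (W_split ha R (x, ε * t) hf w k ?_) hp0.le).trans
        (ENNReal.rpow_add_le_mul_rpow_add_rpow _ _ hp1)
      intro y hy
      have h1 : 3 * R ≤ ‖x - y‖ := by
        rw [Metric.mem_closedBall] at hw hy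
        rw [← dist_eq_norm]
        have := dist_triangle_right y w x
        rw [dist_comm x y]
        push Not at hy
        linarith
      have h2 := hCT R t ε (x - y) hR ht.1 ht.2 hε h1
      rw [hk]
      beta_reduce
      unfold kn
      rw [← ENNReal.ofReal_mul (by positivity), ← ofReal_norm, one_pow, one_mul, one_mul]
      exact ENNReal.ofReal_le_ofReal h2
    calc V * ‖W a f (x, ε * t)‖ₑ ^ p =
          ∫⁻ _w in Metric.closedBall x R, ‖W a f (x, ε * t)‖ₑ ^ p := by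
          rw [setLIntegral_const, hVx, mul_comm]
      _ ≤ ∫⁻ w in Metric.closedBall x R, 2 ^ (p - 1) * (‖W a (fw R f w) (x, ε * t)‖ₑ ^ p +
            cv k (fun y => ‖f y‖ₑ) x ^ p) :=
          setLIntegral_mono' Metric.isClosed_closedBall.measurableSet hw
      _ = 2 ^ (p - 1) * ((∫⁻ w in Metric.closedBall x R, ‖W a (fw R f w) (x, ε * t)‖ₑ ^ p) +
            V * cv k (fun y => ‖f y‖ₑ) x ^ p) := by
          rw [lintegral_const_mul' _ _ (ENNReal.rpow_ne_top_of_nonneg (by linarith) (by simp)),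
            lintegral_add_right _ measurable_const, setLIntegral_const, hVx, mul_comm V]
      _ ≤ _ := by
          refine mul_le_mul_right (add_le_add ?_ le_rfl) _
          exact setLIntegral_le_lintegral _ _
  have hHm := H_meas ha R ε p hf
  -- the main part
  have hmain : ∫⁻ t in Icc R (2 * R), ∫⁻ x : EE d, ∫⁻ w : EE d,
      ‖W a (fw R f w) (x, ε * t)‖ₑ ^ p =
      ∫⁻ w : EE d, ∫⁻ t in Icc R (2 * R), ∫⁻ x : EE d, ‖W a (fw R f w) (x, ε * t)‖ₑ ^ p := by
    have h1 : ∀ t : ℝ, ∫⁻ x : EE d, ∫⁻ w : EE d, ‖W a (fw R f w) (x, ε * t)‖ₑ ^ p =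
        ∫⁻ w : EE d, ∫⁻ x : EE d, ‖W a (fw R f w) (x, ε * t)‖ₑ ^ p := by
      intro t
      refine lintegral_lintegral_swap ?_
      have h2 : Measurable fun q : EE d × EE d => ((q.2, q.1), t) := by fun_prop
      exact (hHm.comp h2).aemeasurable
    rw [lintegral_congr h1]
    refine lintegral_lintegral_swap ?_
    have h2 : Measurable fun q : (ℝ × EE d) × EE d => ((q.1.2, q.2), q.1.1) := by fun_prop
    exact (Measurable.lintegral_prod_right' (hHm.comp h2)).aemeasurable
  obtain ⟨RHS, hRHS⟩ : ∃ RHS : ℝ≥0∞, RHS = (if p ≤ 3 then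
      ENNReal.ofReal (R ^ (3 - p - ((d : ℝ) - 1) * (p - 2) / 2)) *
        ∫⁻ x, ‖f x‖ₑ ^ 2 * kaB (8 * R) R (fun y => ‖f y‖ₑ) x ^ (p - 2)
      else ENNReal.ofReal (R ^ (((d : ℝ) - 1) * (p - 3) - ((d : ℝ) - 1) * (p - 2) / 2)) *
        ∫⁻ x, ‖f x‖ₑ ^ 2 * kaB (8 * R) R (fun y => ‖f y‖ₑ ^ (p - 2)) x) := ⟨_, rfl⟩
  have hfwe : ∀ w y : EE d, ‖fw R f w y‖ₑ =
      (Metric.closedBall w (4 * R)).indicator (fun y => ‖f y‖ₑ) y := by
    intro w y
    unfold fw
    by_cases hy : y ∈ Metric.closedBall w (4 * R)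
    · rw [indicator_of_mem hy, indicator_of_mem hy]
    · rw [indicator_of_notMem hy, indicator_of_notMem hy, enorm_zero]
  have hloc : ∫⁻ w : EE d, ∫⁻ t in Icc R (2 * R), ∫⁻ x : EE d,
      ‖W a (fw R f w) (x, ε * t)‖ₑ ^ p ≤ CK * (ENNReal.ofReal (4 ^ d) * V * RHS) := by
    refine (lintegral_mono fun w => hCK R ε (fw R f w) hR hε (fw_BM hf R w)).trans ?_
    rw [lintegral_const_mul' _ _ ENNReal.coe_ne_top]
    refine mul_le_mul_right ?_ _
    by_cases hp3 : p ≤ 3
    · rw [if_pos hp3] at hRHS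
      simp only [if_pos hp3]
      rw [lintegral_const_mul' _ _ ENNReal.ofReal_ne_top, hRHS, mul_left_comm]
      refine mul_le_mul_right ?_ _
      have hG : Measurable fun x => ‖f x‖ₑ ^ 2 * kaB (8 * R) R (fun y => ‖f y‖ₑ) x ^ (p - 2) :=
        (hfe.pow_const 2).mul ((kaB_meas _ _ _ hfe).pow_const _)
      rw [hV, ← avg_ind R hR0.le _ hG]
      refine lintegral_mono fun w => lintegral_mono fun x => ?_
      by_cases hx : x ∈ Metric.closedBall w (4 * R)
      · rw [indicator_of_mem hx, hfwe, indicator_of_mem hx]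
        refine mul_le_mul_right (ENNReal.rpow_le_rpow ?_ (by linarith)) _
        refine le_trans (le_of_eq ?_) (ka_le R (fun y => ‖f y‖ₑ) w x hx)
        congr 1
        funext y
        exact hfwe w y
      · rw [hfwe, indicator_of_notMem hx, indicator_of_notMem hx]
        simp
    · rw [if_neg hp3] at hRHS
      simp only [if_neg hp3]
      rw [lintegral_const_mul' _ _ ENNReal.ofReal_ne_top, hRHS, mul_left_comm]
      refine mul_le_mul_right ?_ _
      have hG : Measurable fun x => ‖f x‖ₑ ^ 2 * kaB (8 * R) R (fun y => ‖f y‖ₑ ^ (p - 2)) x :=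
        (hfe.pow_const 2).mul (kaB_meas _ _ _ (hfe.pow_const _))
      rw [hV, ← avg_ind R hR0.le _ hG]
      refine lintegral_mono fun w => lintegral_mono fun x => ?_
      by_cases hx : x ∈ Metric.closedBall w (4 * R)
      · rw [indicator_of_mem hx, hfwe, indicator_of_mem hx]
        refine mul_le_mul_right ?_ _
        refine le_trans (le_of_eq ?_) (ka_le R (fun y => ‖f y‖ₑ ^ (p - 2)) w x hx)
        congr 1
        funext y
        rw [hfwe w y]
        by_cases hy : y ∈ Metric.closedBall w (4 * R)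
        · rw [indicator_of_mem hy, indicator_of_mem hy]
        · rw [indicator_of_notMem hy, indicator_of_notMem hy, ENNReal.zero_rpow_of_pos (by linarith)]
      · rw [hfwe, indicator_of_notMem hx, indicator_of_notMem hx]
        simp
  -- the tails
  have htail : ∫⁻ _t in Icc R (2 * R), ∫⁻ x : EE d, V * cv k (fun y => ‖f y‖ₑ) x ^ p ≤
      V * ((ENNReal.ofReal CT * I) ^ p * ENNReal.ofReal ((R ^ M)⁻¹) * ∫⁻ x, ‖f x‖ₑ ^ p) := by
    have h1 := cv_young k (fun y => ‖f y‖ₑ) hkm hfe p hp1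
    rw [hkI] at h1
    have h2 : ENNReal.ofReal R * (ENNReal.ofReal (CT * (R ^ (M + 1))⁻¹) * I) ^ p ≤
        (ENNReal.ofReal CT * I) ^ p * ENNReal.ofReal ((R ^ M)⁻¹) := by
      have h3 : ENNReal.ofReal ((R ^ (M + 1))⁻¹) ^ p ≤ ENNReal.ofReal ((R ^ (M + 1))⁻¹) := by
        have h4 : ENNReal.ofReal ((R ^ (M + 1))⁻¹) ≤ 1 := by
          rw [ENNReal.ofReal_le_one]
          exact inv_le_one_of_one_le₀ (one_le_pow₀ hR)
        calc ENNReal.ofReal ((R ^ (M + 1))⁻¹) ^ p ≤ ENNReal.ofReal ((R ^ (M + 1))⁻¹) ^ (1 : ℝ) :=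
              ENNReal.rpow_le_rpow_of_exponent_ge h4 hp1
          _ = _ := ENNReal.rpow_one _
      calc ENNReal.ofReal R * (ENNReal.ofReal (CT * (R ^ (M + 1))⁻¹) * I) ^ p =
            ENNReal.ofReal R * ((ENNReal.ofReal CT * I) ^ p *
              ENNReal.ofReal ((R ^ (M + 1))⁻¹) ^ p) := by
            rw [ENNReal.ofReal_mul hCT0, mul_right_comm, ENNReal.mul_rpow_of_nonneg _ _ hp0.le]
        _ ≤ ENNReal.ofReal R * ((ENNReal.ofReal CT * I) ^ p *
              ENNReal.ofReal ((R ^ (M + 1))⁻¹)) := by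
            gcongr
        _ = (ENNReal.ofReal CT * I) ^ p * (ENNReal.ofReal R *
              ENNReal.ofReal ((R ^ (M + 1))⁻¹)) := by ring
        _ = _ := by
            rw [← ENNReal.ofReal_mul hR0.le, pow_succ, mul_inv]
            congr 2
            field_simp
    rw [setLIntegral_const, Real.volume_Icc, show 2 * R - R = R by ring,
      lintegral_const_mul' _ _ hVt, mul_assoc]
    refine mul_le_mul_right ?_ _
    calc (∫⁻ x, cv k (fun y => ‖f y‖ₑ) x ^ p) * ENNReal.ofReal R ≤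
          ((ENNReal.ofReal (CT * (R ^ (M + 1))⁻¹) * I) ^ p * ∫⁻ y, ‖f y‖ₑ ^ p) *
            ENNReal.ofReal R := by
          gcongr
      _ = (ENNReal.ofReal R * (ENNReal.ofReal (CT * (R ^ (M + 1))⁻¹) * I) ^ p) *
            ∫⁻ y, ‖f y‖ₑ ^ p := by ring
      _ ≤ _ := by gcongr
  -- conclusion
  have hfin : V * ∫⁻ t in Icc R (2 * R), ∫⁻ x : EE d, ‖W a f (x, ε * t)‖ₑ ^ p ≤
      V * (C * RHS + C * ENNReal.ofReal ((R ^ M)⁻¹) * ∫⁻ x, ‖f x‖ₑ ^ p) := by
    have h2 : (2 : ℝ≥0∞) ^ (p - 1) ≠ ⊤ :=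
      ENNReal.rpow_ne_top_of_nonneg (by linarith) (by simp)
    calc V * ∫⁻ t in Icc R (2 * R), ∫⁻ x : EE d, ‖W a f (x, ε * t)‖ₑ ^ p =
          ∫⁻ t in Icc R (2 * R), ∫⁻ x : EE d, V * ‖W a f (x, ε * t)‖ₑ ^ p := by
          rw [← lintegral_const_mul' _ _ hVt]
          refine lintegral_congr fun t => ?_
          rw [lintegral_const_mul' _ _ hVt]
      _ ≤ ∫⁻ t in Icc R (2 * R), ∫⁻ x : EE d,
            2 ^ (p - 1) * ((∫⁻ w : EE d, ‖W a (fw R f w) (x, ε * t)‖ₑ ^ p) +
              V * cv k (fun y => ‖f y‖ₑ) x ^ p) :=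
          setLIntegral_mono' measurableSet_Icc fun t ht => lintegral_mono fun x => hpt t ht x
      _ = 2 ^ (p - 1) * ((∫⁻ t in Icc R (2 * R), ∫⁻ x : EE d, ∫⁻ w : EE d,
              ‖W a (fw R f w) (x, ε * t)‖ₑ ^ p) +
            ∫⁻ _t in Icc R (2 * R), ∫⁻ x : EE d, V * cv k (fun y => ‖f y‖ₑ) x ^ p) := by
          rw [← lintegral_add_right _ measurable_const, ← lintegral_const_mul' _ _ h2]
          refine lintegral_congr fun t => ?_
          rw [lintegral_const_mul' _ _ h2, lintegral_add_right]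
          exact measurable_const.mul (hcm.pow_const p)
      _ ≤ 2 ^ (p - 1) * (CK * (ENNReal.ofReal (4 ^ d) * V * RHS) +
            V * ((ENNReal.ofReal CT * I) ^ p * ENNReal.ofReal ((R ^ M)⁻¹) *
              ∫⁻ x, ‖f x‖ₑ ^ p)) := by
          rw [hmain]
          exact mul_le_mul_right (add_le_add hloc htail) _
      _ = V * ((2 ^ (p - 1) * (CK * ENNReal.ofReal (4 ^ d))) * RHS +
            (2 ^ (p - 1) * (ENNReal.ofReal CT * I) ^ p) * ENNReal.ofReal ((R ^ M)⁻¹) *
              ∫⁻ x, ‖f x‖ₑ ^ p) := by ring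
      _ ≤ _ := by
          rw [hC]
          gcongr
          · exact le_add_right le_rfl
          · exact le_add_left le_rfl
  rw [← hRHS]
  exact (ENNReal.mul_le_mul_iff_right hV0 hVt).1 hfin

end Pool.Agent.H20.PD
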