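import Pool.Agent.H20.PD.Conv

/-!
Row PSI of the board `pdp_modules`: properties of the averages `cp`.
-/

set_option autoImplicit false

namespace Pool.Agent.H20.PD

open MeasureTheory Set Pool.Agent.H82.KL Pool.Agent.H82.PD
open scoped ENNReal NNReal

variable {d : ℕ}

/-- the kernel of `cp` -/
noncomputable def kn (lam : ℝ) (z : EE d) : ℝ≥0∞ :=
  ENNReal.ofReal (lam ^ d * ((1 + lam * ‖z‖) ^ (d + 1))⁻¹)

lemma cp_eq (lam : ℝ) (G : EE d → ℝ≥0∞) (x : EE d) : cp lam G x = cv (kn lam) G x := rfl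

lemma kn_meas (lam : ℝ) : Measurable (kn lam : EE d → ℝ≥0∞) := by
  unfold kn
  fun_prop

lemma kn_shift {lam : ℝ} (hlam : 1 ≤ lam) (z h : EE d) (hh : ‖h‖ ≤ 1 / lam) :
    kn lam z ≤ 2 ^ (d + 1) * kn lam (z + h) := by
  unfold kn
  have hl0 : 0 < lam := by linarith
  have e2 : (2 : ℝ≥0∞) ^ (d + 1) = ENNReal.ofReal (2 ^ (d + 1)) := by
    rw [ENNReal.ofReal_pow (by norm_num), ENNReal.ofReal_ofNat]
  rw [e2, ← ENNReal.ofReal_mul (by positivity)]
  refine ENNReal.ofReal_le_ofReal ?_
  have h1 : lam * ‖h‖ ≤ 1 := by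
    rw [le_div_iff₀ hl0] at hh
    linarith
  have h2 : 1 + lam * ‖z + h‖ ≤ 2 * (1 + lam * ‖z‖) := by
    have h3 := norm_add_le z h
    have h4 : lam * ‖z + h‖ ≤ lam * ‖z‖ + lam * ‖h‖ := by nlinarith
    have h5 : 0 ≤ lam * ‖z‖ := by positivity
    linarith
  have h3 : (1 + lam * ‖z + h‖) ^ (d + 1) ≤ 2 ^ (d + 1) * (1 + lam * ‖z‖) ^ (d + 1) := by
    rw [← mul_pow]
    exact pow_le_pow_left₀ (by positivity) h2 _
  have h6 : ((1 + lam * ‖z‖) ^ (d + 1))⁻¹ ≤ 2 ^ (d + 1) * ((1 + lam * ‖z + h‖) ^ (d + 1))⁻¹ := by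
    rw [← div_eq_mul_inv, le_div_iff₀ (by positivity), inv_mul_le_iff₀ (by positivity)]
    linarith
  calc lam ^ d * ((1 + lam * ‖z‖) ^ (d + 1))⁻¹ ≤
        lam ^ d * (2 ^ (d + 1) * ((1 + lam * ‖z + h‖) ^ (d + 1))⁻¹) :=
        mul_le_mul_of_nonneg_left h6 (by positivity)
    _ = _ := by ring

/-- the integral of the kernel does not depend on `lam` -/
lemma kn_int (d : ℕ) : ∃ I : ℝ≥0, ∀ lam : ℝ, 1 ≤ lam → ∫⁻ z : EE d, kn lam z = I := by
  have hfin : Module.finrank ℝ (EE d) = d := finrank_euclideanSpace_fin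
  obtain ⟨f, hf⟩ : ∃ f : EE d → ℝ, f = fun z => ((1 + ‖z‖) ^ (d + 1))⁻¹ := ⟨_, rfl⟩
  have hint : Integrable f := by
    have h1 := integrable_one_add_norm (μ := (volume : Measure (EE d))) (r := (d : ℝ) + 1)
      (by rw [hfin]; linarith)
    refine h1.congr (Filter.Eventually.of_forall fun z => ?_)
    rw [hf]
    have h2 : (0 : ℝ) ≤ 1 + ‖z‖ := by positivity
    show (1 + ‖z‖) ^ (-((d : ℝ) + 1)) = ((1 + ‖z‖) ^ (d + 1))⁻¹
    rw [Real.rpow_neg h2, ← Real.rpow_natCast (1 + ‖z‖) (d + 1)]
    push_cast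
    rfl
  refine ⟨(∫ z, f z).toNNReal, fun lam hlam => ?_⟩
  have hl0 : 0 < lam := by linarith
  have hf0 : ∀ z, 0 ≤ f z := fun z => by rw [hf]; positivity
  have hint2 : Integrable fun z => f (lam • z) := hint.comp_smul hl0.ne'
  have h3 : ∫ z, f (lam • z) = (lam ^ d)⁻¹ * ∫ z, f z := by
    rw [Measure.integral_comp_smul, hfin, smul_eq_mul, abs_of_pos (by positivity)]
  have h4 : ∀ z : EE d, kn lam z = ENNReal.ofReal (lam ^ d * f (lam • z)) := by
    intro z
    rw [hf]
    unfold kn
    show _ = ENNReal.ofReal (lam ^ d * ((1 + ‖lam • z‖) ^ (d + 1))⁻¹)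
    rw [norm_smul, Real.norm_eq_abs, abs_of_pos hl0]
  rw [lintegral_congr h4, ← ofReal_integral_eq_lintegral_ofReal (hint2.const_mul _)
    (Filter.Eventually.of_forall fun z => mul_nonneg (by positivity) (hf0 _)),
    integral_const_mul, h3, ← mul_assoc, mul_inv_cancel₀ (by positivity), one_mul]
  rfl

/-- averages over balls, centred at the origin -/
lemma ba_eq (b : ℝ) (F : EE d → ℝ≥0∞) (x : EE d) :
    ba b F x = ∫⁻ h in Metric.closedBall (0 : EE d) b, F (x + h) := by
  unfold ba
  rw [← lintegral_indicator Metric.isClosed_closedBall.measurableSet,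
    ← lintegral_indicator Metric.isClosed_closedBall.measurableSet,
    ← lintegral_add_left_eq_self _ x]
  refine lintegral_congr fun h => ?_
  by_cases hh : h ∈ Metric.closedBall (0 : EE d) b
  · rw [indicator_of_mem hh, indicator_of_mem]
    rw [Metric.mem_closedBall, dist_zero_right] at hh
    rw [Metric.mem_closedBall, dist_eq_norm, add_sub_cancel_left]
    exact hh
  · rw [indicator_of_notMem hh, indicator_of_notMem]
    rw [Metric.mem_closedBall, dist_zero_right] at hh
    rw [Metric.mem_closedBall, dist_eq_norm, add_sub_cancel_left]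
    exact hh

theorem pf_PSI : T_PSI := by
  intro d κ p hd hκ hp
  have hfin : Module.finrank ℝ (EE d) = d := finrank_euclideanSpace_fin
  obtain ⟨I, hI⟩ := kn_int d
  obtain ⟨v, hv⟩ : ∃ v : ℝ≥0∞, v = volume (Metric.ball (0 : EE d) 1) := ⟨_, rfl⟩
  have hv0 : v ≠ 0 := by
    rw [hv]
    exact (Metric.measure_ball_pos volume _ one_pos).ne'
  have hvt : v ≠ ⊤ := by
    rw [hv]
    exact measure_ball_lt_top.ne
  obtain ⟨C, hC⟩ : ∃ C : ℝ≥0, (C : ℝ≥0∞) = 2 ^ (d + 1) + (I : ℝ≥0∞) ^ p + v⁻¹ * 2 ^ (d + 1) := by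
    refine ⟨(2 ^ (d + 1) + (I : ℝ≥0∞) ^ p + v⁻¹ * 2 ^ (d + 1)).toNNReal, ENNReal.coe_toNNReal ?_⟩
    refine ENNReal.add_ne_top.2 ⟨ENNReal.add_ne_top.2 ⟨by simp, ?_⟩, ?_⟩
    · exact ENNReal.rpow_ne_top_of_nonneg (by linarith) ENNReal.coe_ne_top
    · exact ENNReal.mul_ne_top (ENNReal.inv_ne_top.2 hv0) (by simp)
  refine ⟨C, fun lam hlam => ⟨fun G hG => ⟨?_, ?_, ?_⟩, fun A G w hG hw hba => ⟨?_, ?_⟩⟩⟩
  · exact cv_meas (kn lam) G (kn_meas lam) hG
  · intro x y hxy
    have h1 : cp lam G y ≤ 2 ^ (d + 1) * cp lam G x := by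
      rw [cp_eq, cp_eq]
      unfold cv
      rw [← lintegral_const_mul' _ _ (by simp)]
      refine lintegral_mono fun u => ?_
      have h2 := kn_shift (d := d) hlam (y - u) (x - y) hxy
      rw [show y - u + (x - y) = x - u by abel] at h2
      calc kn lam (y - u) * G u ≤ (2 ^ (d + 1) * kn lam (x - u)) * G u :=
            mul_le_mul_left h2 _
        _ = _ := by ring
    refine h1.trans (mul_le_mul_left ?_ _)
    rw [hC]
    exact (le_add_right le_rfl).trans (le_add_right le_rfl)
  · have h1 := cv_young (kn lam) G (kn_meas lam) hG p hp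
    rw [hI lam hlam] at h1
    refine h1.trans (mul_le_mul_left ?_ _)
    rw [hC]
    exact (le_add_left le_rfl).trans (le_add_right le_rfl)
  · intro x
    have hl0 : 0 < lam := by linarith
    have hB : volume (Metric.closedBall (0 : EE d) (1 / lam)) =
        ENNReal.ofReal ((1 / lam) ^ d) * v := by
      rw [Measure.addHaar_closedBall volume _ (by positivity), hfin, hv]
    have hK : Measurable fun q : EE d × EE d => kn lam (x - q.2) * G (q.2 + q.1) :=
      ((kn_meas lam).comp (by fun_prop)).mul (hG.comp (by fun_prop))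
    have h1 : volume (Metric.closedBall (0 : EE d) (1 / lam)) * cp lam G x ≤
        2 ^ (d + 1) * cv (kn lam) (fun z => ba (1 / lam) G z) x := by
      have h2 : ∀ h ∈ Metric.closedBall (0 : EE d) (1 / lam), cp lam G x ≤
          2 ^ (d + 1) * ∫⁻ z, kn lam (x - z) * G (z + h) := by
        intro h hh
        rw [Metric.mem_closedBall, dist_zero_right] at hh
        have h3 : ∫⁻ z, kn lam (x - z) * G (z + h) = ∫⁻ y, kn lam (x - y + h) * G y := by
          rw [← lintegral_add_right_eq_self (fun y => kn lam (x - y + h) * G y) h]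
          refine lintegral_congr fun z => ?_
          rw [show x - (z + h) + h = x - z by abel]
        rw [h3, cp_eq]
        unfold cv
        rw [← lintegral_const_mul' _ _ (by simp)]
        refine lintegral_mono fun u => ?_
        calc kn lam (x - u) * G u ≤ (2 ^ (d + 1) * kn lam (x - u + h)) * G u :=
              mul_le_mul_left (kn_shift (d := d) hlam (x - u) h hh) _
          _ = _ := by ring
      calc volume (Metric.closedBall (0 : EE d) (1 / lam)) * cp lam G x =
            ∫⁻ _h in Metric.closedBall (0 : EE d) (1 / lam), cp lam G x := by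
            rw [setLIntegral_const, mul_comm]
        _ ≤ ∫⁻ h in Metric.closedBall (0 : EE d) (1 / lam),
              2 ^ (d + 1) * ∫⁻ z, kn lam (x - z) * G (z + h) :=
            setLIntegral_mono' Metric.isClosed_closedBall.measurableSet h2
        _ = 2 ^ (d + 1) * ∫⁻ h in Metric.closedBall (0 : EE d) (1 / lam),
              ∫⁻ z, kn lam (x - z) * G (z + h) := lintegral_const_mul' _ _ (by simp)
        _ = 2 ^ (d + 1) * ∫⁻ z, ∫⁻ h in Metric.closedBall (0 : EE d) (1 / lam),
              kn lam (x - z) * G (z + h) := by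
            rw [lintegral_lintegral_swap hK.aemeasurable]
        _ = _ := by
            congr 1
            unfold cv
            refine lintegral_congr fun z => ?_
            have hm : Measurable fun h : EE d => G (z + h) := hG.comp (by fun_prop)
            beta_reduce
            rw [lintegral_const_mul _ hm, ba_eq]
    have h4 : cv (kn lam) (fun z => ba (1 / lam) G z) x ≤
        A * ENNReal.ofReal ((1 / lam) ^ ((d : ℝ) - κ)) * cp lam w x := by
      rw [cp_eq, ← cv_const_mul (kn lam) w _ (kn_meas lam) hw x]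
      refine cv_mono _ _ _ (fun z => ?_) x
      refine hba (1 / lam) z (by positivity) ?_
      rw [div_le_iff₀ hl0]
      linarith
    have h5 : ENNReal.ofReal (lam ^ d) * ENNReal.ofReal ((1 / lam) ^ d) = 1 := by
      rw [← ENNReal.ofReal_mul (by positivity), ← mul_pow, mul_one_div_cancel hl0.ne', one_pow,
        ENNReal.ofReal_one]
    have h6 : ENNReal.ofReal (lam ^ d) * ENNReal.ofReal ((1 / lam) ^ ((d : ℝ) - κ)) =
        ENNReal.ofReal (lam ^ κ) := by
      rw [← ENNReal.ofReal_mul (by positivity)]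
      congr 1
      rw [one_div, Real.inv_rpow hl0.le, ← Real.rpow_neg hl0.le, ← Real.rpow_natCast,
        ← Real.rpow_add hl0]
      congr 1
      ring
    have h7 : v * cp lam G x ≤ 2 ^ (d + 1) * (A * ENNReal.ofReal (lam ^ κ) * cp lam w x) := by
      rw [hB] at h1
      have h8 := mul_le_mul_right (h1.trans (mul_le_mul_right h4 (2 ^ (d + 1))))
        (ENNReal.ofReal (lam ^ d))
      calc v * cp lam G x = (ENNReal.ofReal (lam ^ d) * ENNReal.ofReal ((1 / lam) ^ d)) *
            (v * cp lam G x) := by rw [h5, one_mul]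
        _ = ENNReal.ofReal (lam ^ d) * (ENNReal.ofReal ((1 / lam) ^ d) * v * cp lam G x) := by
            ring
        _ ≤ _ := h8
        _ = 2 ^ (d + 1) * (A * (ENNReal.ofReal (lam ^ d) *
              ENNReal.ofReal ((1 / lam) ^ ((d : ℝ) - κ))) * cp lam w x) := by ring
        _ = _ := by rw [h6]
    have h9 : cp lam G x ≤ v⁻¹ * (2 ^ (d + 1) * (A * ENNReal.ofReal (lam ^ κ) * cp lam w x)) := by
      calc cp lam G x = v⁻¹ * (v * cp lam G x) := by
            rw [← mul_assoc, ENNReal.inv_mul_cancel hv0 hvt, one_mul]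
        _ ≤ _ := mul_le_mul_right h7 _
    calc cp lam G x ≤ (v⁻¹ * 2 ^ (d + 1)) * (A * ENNReal.ofReal (lam ^ κ) * cp lam w x) := by
          rw [mul_assoc]
          exact h9
      _ ≤ C * (A * ENNReal.ofReal (lam ^ κ) * cp lam w x) := by
          refine mul_le_mul_left ?_ _
          rw [hC]
          exact le_add_left le_rfl
      _ = _ := by ring
  · intro b x hb hb16
    have h1 : ∀ y, cp lam G y = ∫⁻ z, kn lam z * G (y - z) := fun y => cv_symm (kn lam) G y
    have hK : Measurable fun q : EE d × EE d => kn lam q.2 * G (x + q.1 - q.2) :=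
      ((kn_meas lam).comp measurable_snd).mul (hG.comp (by fun_prop))
    calc ba b (cp lam G) x = ∫⁻ h in Metric.closedBall (0 : EE d) b,
          ∫⁻ z, kn lam z * G (x + h - z) := by
          rw [ba_eq]
          exact lintegral_congr fun h => h1 _
      _ = ∫⁻ z, ∫⁻ h in Metric.closedBall (0 : EE d) b, kn lam z * G (x + h - z) := by
          rw [lintegral_lintegral_swap hK.aemeasurable]
      _ = ∫⁻ z, kn lam z * ba b G (x - z) := by
          refine lintegral_congr fun z => ?_
          have hm : Measurable fun h : EE d => G (x + h - z) := hG.comp (by fun_prop)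
          rw [lintegral_const_mul _ hm, ba_eq]
          congr 1
          refine lintegral_congr fun h => ?_
          rw [show x + h - z = x - z + h by abel]
      _ ≤ ∫⁻ z, kn lam z * (A * ENNReal.ofReal (b ^ ((d : ℝ) - κ)) * w (x - z)) :=
          lintegral_mono fun z => mul_le_mul_right (hba b (x - z) hb hb16) _
      _ = ∫⁻ z, (A * ENNReal.ofReal (b ^ ((d : ℝ) - κ))) * (kn lam z * w (x - z)) :=
          lintegral_congr fun z => by ring
      _ = A * ENNReal.ofReal (b ^ ((d : ℝ) - κ)) * cp lam w x := by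
          have hm : Measurable fun z : EE d => kn lam z * w (x - z) :=
            (kn_meas lam).mul (hw.comp (by fun_prop))
          rw [lintegral_const_mul _ hm, cp_eq, cv_symm]

end Pool.Agent.H20.PD
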