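import Pool.Agent.H95.ND.Targets

/-!
# Part D of MP_57ddd5_pr: simple facts on the cut-off
-/

namespace Pool.Agent.H20.PD

open Pool.Agent.H99.NS Pool.Agent.H22.LPP Pool.Agent.H95.INS Pool.Agent.H76.ND Pool.Agent.H95.ND
open Pool.Agent.H97.NF (PEnv eA eB PN)

theorem pf_SMF : T_SMF := by
  intro Xc A a i hX hA hAX hS hai
  have h64 : (64 : ℤ) ^ a ≤ 64 ^ i := pow_le_pow_right₀ (by norm_num) hai
  have hSi : Sml Xc i := le_trans hS h64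
  have h4 : 16 * Xc + 2 ≤ 4 ^ i := by
    by_contra hcon
    push Not at hcon
    have h1 : (1 : ℤ) ≤ 4 ^ i := one_le_pow₀ (by norm_num)
    have h2 : ((4 : ℤ) ^ i) ^ 24 < (16 * Xc + 2) ^ 24 :=
      pow_lt_pow_left₀ hcon (by positivity) (by norm_num)
    have h3 : ((4 : ℤ) ^ i) ^ 3 ≤ ((4 : ℤ) ^ i) ^ 24 := pow_le_pow_right₀ h1 (by norm_num)
    have h5 : (64 : ℤ) ^ i = ((4 : ℤ) ^ i) ^ 3 := by
      rw [← pow_mul, mul_comm, pow_mul]; norm_num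
    have h6 : (16 * Xc + 2) ^ 24 ≤ (64 : ℤ) ^ i := hSi
    rw [h5] at h6
    linarith
  refine ⟨hSi, by linarith, by linarith, ?_⟩
  have hx0 : (0 : ℝ) ≤ 16 * (Xc : ℝ) + 2 := by
    have : (16 : ℝ) ≤ (Xc : ℝ) := by exact_mod_cast hX
    linarith
  have h7 : (16 * (Xc : ℝ) + 2) ^ 24 ≤ (64 : ℝ) ^ i := by
    have h6 : (16 * Xc + 2) ^ 24 ≤ (64 : ℤ) ^ i := hSi
    exact_mod_cast h6
  have h8 : (16 * (Xc : ℝ) + 2) ≤ ((64 : ℝ) ^ i) ^ ((1 : ℝ) / 24) := by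
    have h9 : ((16 * (Xc : ℝ) + 2) ^ 24) ^ ((1 : ℝ) / 24) = 16 * (Xc : ℝ) + 2 := by
      rw [← Real.rpow_natCast, ← Real.rpow_mul hx0]
      norm_num
    rw [← h9]
    exact Real.rpow_le_rpow (by positivity) h7 (by norm_num)
  have h16 : (16 : ℝ) ^ i = ((64 : ℝ) ^ i) ^ ((2 : ℝ) / 3) := by
    have e1 : (64 : ℝ) ^ i = ((4 : ℝ) ^ i) ^ 3 := by
      rw [← pow_mul, mul_comm, pow_mul]; norm_num
    have e2 : (16 : ℝ) ^ i = ((4 : ℝ) ^ i) ^ 2 := by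
      rw [← pow_mul, mul_comm, pow_mul]; norm_num
    rw [e1, e2, ← Real.rpow_natCast _ 3, ← Real.rpow_mul (by positivity), ← Real.rpow_natCast _ 2]
    norm_num
  have h64p : (0 : ℝ) < (64 : ℝ) ^ i := by positivity
  calc (16 * (Xc : ℝ) + 2) * 16 ^ i ≤ ((64 : ℝ) ^ i) ^ ((1 : ℝ) / 24) * 16 ^ i := by gcongr
    _ = ((64 : ℝ) ^ i) ^ ((1 : ℝ) / 24) * ((64 : ℝ) ^ i) ^ ((2 : ℝ) / 3) := by rw [← h16]
    _ = ((64 : ℝ) ^ i) ^ ((17 : ℝ) / 24) := by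
        rw [← Real.rpow_add h64p]; norm_num

end Pool.Agent.H20.PD
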